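import Mathlib
import Pool.Agent.V11278.Upcycle

/-!
# The diamondicity can be a quarter of the word length

For every `k ≥ 1` there is a non-trivial universal partial word over four letters, for words of length
`4 k`, each of whose windows has exactly `k` diamonds.  Hence a constant `ε` with `d ≤ ε n` for all large
`n` must be at least `1 / 4`.
-/

set_option autoImplicit false

namespace Pool.Agent.Results.MP_1a637f_co.QuarterLower

/-- The partial word `v` (`none` is the diamond) covers the word `u` at position `i`: the block of `n`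
characters of `v` starting at position `i` exists and each of its characters is a diamond or the
corresponding letter of `u`. -/
def CoversAt {a n : ℕ} (v : List (Option (Fin a))) (u : Fin n → Fin a) (i : ℕ) : Prop :=
  i + n ≤ v.length ∧ ∀ j : Fin n, v[i + j.val]? = some none ∨ v[i + j.val]? = some (some (u j))

/-- `v` is a universal partial word for the words of length `n`. -/
def IsUniversal {a : ℕ} (n : ℕ) (v : List (Option (Fin a))) : Prop :=
  ∀ u : Fin n → Fin a, ∃! i : ℕ, CoversAt v u i

/-- `v` is non-trivial: it contains a diamond and is not the word of `n` diamonds. -/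
def IsNontrivial {a : ℕ} (n : ℕ) (v : List (Option (Fin a))) : Prop :=
  none ∈ v ∧ v ≠ List.replicate n none

/-- Every window of length `n` of `v` has exactly `d` diamonds. -/
def HasDiamondicity {a : ℕ} (n d : ℕ) (v : List (Option (Fin a))) : Prop :=
  ∀ i : ℕ, i + n ≤ v.length →
    (Finset.univ.filter fun j : Fin n => v[i + j.val]? = some none).card = d

/-- For every `k ≥ 1` there is a non-trivial universal partial word over four letters for words of
length `4 k` with well-defined diamondicity `k`. -/
theorem quarter (k : ℕ) (hk : 1 ≤ k) : ∃ v : List (Option (Fin 4)),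
    IsUniversal (4 * k) v ∧ IsNontrivial (4 * k) v ∧ HasDiamondicity (4 * k) k v := by
  obtain ⟨N, u, hN, hu, hd⟩ := Pool.Agent.V11278.Upcycle.main_fin k hk
  have hNZ : NeZero N := ⟨hN.ne'⟩
  let v : List (Option (Fin 4)) := List.ofFn fun t : Fin (N + 4 * k - 1) => u (t.val : ZMod N)
  have hlen : v.length = N + 4 * k - 1 := List.length_ofFn
  have hget : ∀ t : ℕ, t < N + 4 * k - 1 → v[t]? = some (u (t : ZMod N)) := by
    intro t ht
    rw [List.getElem?_eq_getElem (by rw [hlen]; exact ht)]
    congr 1
    simp [v]
  have hD : HasDiamondicity (4 * k) k v := by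
    intro i hi
    rw [hlen] at hi
    refine Eq.trans ?_ (hd (i : ZMod N))
    refine congrArg Finset.card (Finset.filter_congr ?_)
    intro j _
    rw [hget _ (by omega)]
    push_cast
    exact Option.some_inj
  refine ⟨v, ?_, ⟨?_, ?_⟩, hD⟩
  · intro w
    obtain ⟨i, hi, hiu⟩ := hu w
    refine ⟨i.val, ⟨?_, ?_⟩, ?_⟩
    · rw [hlen]
      have := ZMod.val_lt i
      omega
    · intro j
      have := ZMod.val_lt i
      rw [hget _ (by omega)]
      push_cast
      rw [ZMod.natCast_zmod_val]
      rcases hi j with h | h
      · left; rw [h]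
      · right; rw [h]
    · rintro i' ⟨h1, h2⟩
      rw [hlen] at h1
      have hi'N : i' < N := by omega
      have h3 : (i' : ZMod N) = i := by
        apply hiu
        intro j
        have h4 := h2 j
        rw [hget _ (by omega)] at h4
        push_cast at h4
        rcases h4 with h4 | h4
        · left; exact Option.some.inj h4
        · right; exact Option.some.inj h4
      rw [← h3, ZMod.val_natCast, Nat.mod_eq_of_lt hi'N]
  · by_contra h
    have h1 := hD 0 (by rw [hlen]; omega)
    rw [Finset.filter_false_of_mem, Finset.card_empty] at h1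
    · omega
    · intro j _ hj
      exact h (List.mem_of_getElem? hj)
  · intro h
    have h1 := hD 0 (by rw [hlen]; omega)
    rw [Finset.filter_true_of_mem, Finset.card_univ, Fintype.card_fin] at h1
    · omega
    · intro j _
      rw [h, zero_add, List.getElem?_replicate, if_pos j.2]

/-- If `ε` is such that, for all sufficiently large `n`, every non-trivial universal partial word over
the four letter alphabet with well-defined diamondicity `d` satisfies `d ≤ ε n`, then `ε ≥ 1 / 4`;
indeed for every `ε < 1 / 4` the bound fails for every positive multiple `n` of `4`. -/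
theorem result :
    (∀ n : ℕ, 0 < n → 4 ∣ n → ∃ (d : ℕ) (v : List (Option (Fin 4))), IsUniversal n v ∧
      IsNontrivial n v ∧ HasDiamondicity n d v ∧ 4 * d = n) ∧
    ∀ ε : ℝ, (∃ n₀ : ℕ, ∀ n ≥ n₀, ∀ (d : ℕ) (v : List (Option (Fin 4))), IsUniversal n v →
      IsNontrivial n v → HasDiamondicity n d v → (d : ℝ) ≤ ε * n) → 1 / 4 ≤ ε := by
  have h1 : ∀ n : ℕ, 0 < n → 4 ∣ n → ∃ (d : ℕ) (v : List (Option (Fin 4))), IsUniversal n v ∧
      IsNontrivial n v ∧ HasDiamondicity n d v ∧ 4 * d = n := by
    rintro n hn ⟨k, rfl⟩
    obtain ⟨v, h1, h2, h3⟩ := quarter k (by omega)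
    exact ⟨k, v, h1, h2, h3, rfl⟩
  refine ⟨h1, ?_⟩
  rintro ε ⟨n₀, h⟩
  obtain ⟨d, v, hu, hn, hd, h4⟩ := h1 (4 * (n₀ + 1)) (by omega) ⟨_, rfl⟩
  have h2 := h (4 * (n₀ + 1)) (by omega) d v hu hn hd
  have h3 : d = n₀ + 1 := by omega
  rw [h3] at h2
  push_cast at h2
  have h5 : (0 : ℝ) < (n₀ : ℝ) + 1 := by positivity
  by_contra h6
  push Not at h6
  have h7 : ε * (4 * ((n₀ : ℝ) + 1)) < 1 / 4 * (4 * ((n₀ : ℝ) + 1)) := by
    apply mul_lt_mul_of_pos_right h6
    positivity
  linarith

end Pool.Agent.Results.MP_1a637f_co.QuarterLower
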